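import Pool.Agent.helper84.TP.SpecA

/-!
# Row CNM: the number of the input stack is computable
-/

set_option autoImplicit false

namespace Pool.Agent.TP

open Function Turing Turing.PartrecToTM2 Relation

namespace CNMP

/-- the number of the stack of one number -/
def g (e : ℕ) : ℕ := num (trNat e ++ [Γ'.cons])

theorem g_zero : g 0 = 2 := by
  simp [g, num, dg]

theorem trNum_bit1 (x : Num) : trNum (Num.bit1 x) = Γ'.bit1 :: trNum x := by
  cases x with
  | zero => rfl
  | pos p => rfl

theorem trNum_bit0 (x : Num) (hx : x ≠ 0) : trNum (Num.bit0 x) = Γ'.bit0 :: trNum x := by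
  cases x with
  | zero => exact absurd rfl hx
  | pos p => rfl

theorem trNat_odd (m : ℕ) : trNat (2 * m + 1) = Γ'.bit1 :: trNat m := by
  have h : ((2 * m + 1 : ℕ) : Num) = Num.bit1 (m : Num) := by
    rw [← Num.ofNat'_eq, ← Num.ofNat'_eq]
    have := Num.ofNat'_bit true m
    simpa [Nat.bit_val] using this
  rw [trNat, h, trNum_bit1]
  rfl

theorem trNat_even (m : ℕ) (hm : m ≠ 0) : trNat (2 * m) = Γ'.bit0 :: trNat m := by
  have h : ((2 * m : ℕ) : Num) = Num.bit0 (m : Num) := by
    rw [← Num.ofNat'_eq, ← Num.ofNat'_eq]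
    have := Num.ofNat'_bit false m
    simpa [Nat.bit_val] using this
  have h0 : (m : Num) ≠ 0 := by
    exact_mod_cast hm
  rw [trNat, h, trNum_bit0 _ h0]
  rfl

theorem g_rec (e : ℕ) (he : e ≠ 0) :
    g e = (if e % 2 = 1 then 4 else 3) + 5 * g (e / 2) := by
  rcases Nat.even_or_odd' e with ⟨m, hm | hm⟩
  · have h0 : m ≠ 0 := by omega
    have h1 : e / 2 = m := by omega
    have h2 : ¬ e % 2 = 1 := by omega
    rw [h1, if_neg h2, hm]
    simp [g, trNat_even m h0, num, dg]
  · have h1 : e / 2 = m := by omega
    have h2 : e % 2 = 1 := by omega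
    rw [h1, if_pos h2, hm]
    simp [g, trNat_odd m, num, dg]

theorem prim_g : Primrec g := by
  have hstep : Primrec₂ (fun (_ : Unit) (l : List ℕ) =>
      (some (if l.length = 0 then 2 else
        (if l.length % 2 = 1 then 4 else 3) + 5 * l.getD (l.length / 2) 0) : Option ℕ)) := by
    have hl : Primrec fun p : Unit × List ℕ => p.2.length := Primrec.list_length.comp Primrec.snd
    refine Primrec.option_some.comp ?_
    refine Primrec.ite (Primrec.eq.comp hl (Primrec.const 0)) (Primrec.const 2) ?_
    refine Primrec.nat_add.comp ?_ ?_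
    · exact Primrec.ite (Primrec.eq.comp (Primrec.nat_mod.comp hl (Primrec.const 2))
        (Primrec.const 1)) (Primrec.const 4) (Primrec.const 3)
    · exact Primrec.nat_mul.comp (Primrec.const 5)
        ((Primrec.list_getD 0).comp Primrec.snd (Primrec.nat_div.comp hl (Primrec.const 2)))
  have h := Primrec.nat_strong_rec (fun (_ : Unit) n => g n) hstep ?_
  · exact h.comp (Primrec.const ()) Primrec.id
  · intro _ n
    simp only [List.length_map, List.length_range]
    by_cases hn : n = 0
    · subst hn
      simp [g_zero]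
    · have hlt : n / 2 < n := Nat.div_lt_self (Nat.pos_of_ne_zero hn) (by norm_num)
      rw [if_neg hn, g_rec n hn]
      have : (List.map (fun k => g k) (List.range n)).getD (n / 2) 0 = g (n / 2) := by
        rw [List.getD_eq_getElem _ _ (by simpa using hlt)]
        simp
      simp only [this]

end CNMP

theorem CNM : CNM_stmt := by
  have h : (fun e : ℕ => num (trList [e])) = CNMP.g := by
    funext e
    simp [CNMP.g, trList]
  unfold CNM_stmt
  rw [h]
  exact CNMP.prim_g.to_comp

end Pool.Agent.TP
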