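import Pool.Agent.helper26.DP.MA
import Pool.Agent.helper64.TP.SpecD
import Pool.Agent.helper64.TP.Basic
/-!
# Project sp (port of dp), module MA: several crossing clusters
-/

namespace TP

open DP

open MeasureTheory

/-- unions of `t` brick-disjoint crossing sets -/
def MA_U2 (J : Set V) (y : V) (R : ℕ) (L : Finset V) : ℕ → Set (Finset V)
  | 0 => {∅}
  | t + 1 => {M | ∃ K ∈ MA_D J y R L, ∃ K' ∈ MA_U2 J y R L t, BDis (K : Set V) (K' : Set V) ∧
      ∀ v, v ∈ M ↔ v ∈ K ∨ v ∈ K'}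

theorem MA_U2_sub (J : Set V) (y : V) (R : ℕ) (L : Finset V) (t : ℕ) :
    ∀ K ∈ MA_U2 J y R L t, K ⊆ L := by
  induction t with
  | zero =>
    intro K hK
    have : K = ∅ := hK
    rw [this]; exact Finset.empty_subset _
  | succ t ih =>
    rintro M ⟨K, hK, K', hK', -, hM⟩ v hv
    rcases (hM v).1 hv with h | h
    · exact hK.1 h
    · exact ih K' hK' h

theorem MA_meas {F : Set (V → Bool)} {L : Finset V} (h : Dep F (L : Set V)) :
    MeasurableSet F := by
  have e : F = (fun (b : V → Bool) (v : L) => b (br v)) ⁻¹' {g | ∃ b ∈ F, ∀ v : L, b (br v) = g v} := by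
    ext b
    constructor
    · intro hb
      exact ⟨b, hb, fun _ => rfl⟩
    · rintro ⟨b', hb', h'⟩
      refine (h b' b fun v hv => ?_).1 hb'
      exact h' ⟨v, hv⟩
  rw [e]
  apply MeasurableSet.preimage
  · exact (Set.toFinite _).measurableSet
  · exact measurable_pi_lambda _ fun v => measurable_pi_apply _

theorem MA_loop_loc (k : Bool) (g : V) (l : ℕ) :
    Loc (Ev fun c => ∃ S, Loop c k g l S) (box g (3 * l)) := by
  apply Loc.ev (box_finite g (3 * l))
  intro c c' h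
  constructor
  · rintro ⟨S, hS⟩
    exact ⟨S, MA_loop_congr h hS⟩
  · rintro ⟨S, hS⟩
    exact ⟨S, MA_loop_congr (fun v hv => (h v hv).symm) hS⟩

theorem MA_one (hLH : LH_stmt) (c₀ : ℝ) (l R : ℕ) (y : V) (k : Bool) (J : Set V) (L : Finset V)
    (hc : ∀ k' g, c₀ ≤ Pr (Ev fun c => ∃ S, Loop c k' g l S)) (hJ : J ⊆ box y l)
    (hR : 3 * l ≤ R) :
    Pr (Ev fun c => ∃ K ∈ MA_D J y R L, ∀ v ∈ K, c v = k) ≤ 1 - c₀ := by
  obtain ⟨M, -, hM⟩ := MA_loop_loc (!k) y l
  have hmeas := MA_meas hM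
  have hsub : (Ev fun c => ∃ K ∈ MA_D J y R L, ∀ v ∈ K, c v = k) ⊆
      (Ev fun c => ∃ S, Loop c (!k) y l S)ᶜ := by
    rintro b ⟨K, ⟨-, u, hu, z, hz, hcon⟩, hK⟩ ⟨S, hS⟩
    have hcon' : Con {v | col b v = k} u z := hcon.mono fun v hv => hK v hv
    obtain ⟨w, hw, hcw⟩ := hLH (col b) (!k) y l S hS {v | col b v = k} u z hcon' (hJ hu)
      (by omega)
    have h1 : col b w = k := hcw.mem_right
    obtain ⟨p, u', h2, -, h3⟩ := hS
    rw [h3] at hw
    have h4 : col b w = !k := (h2.2.2.2 w hw).2.2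
    rw [h1] at h4
    cases k <;> simp at h4
  have h1 : Pr (Ev fun c => ∃ K ∈ MA_D J y R L, ∀ v ∈ K, c v = k) ≤
      Pr (Ev fun c => ∃ S, Loop c (!k) y l S)ᶜ := MA_Pr_mono hsub
  have h2 : Pr (Ev fun c => ∃ S, Loop c (!k) y l S)ᶜ =
      1 - Pr (Ev fun c => ∃ S, Loop c (!k) y l S) := by
    have := MA_P1
    unfold Pr
    exact probReal_compl_eq_one_sub hmeas
  have h3 := hc (!k) y
  linarith

theorem MA_pow (hB : Bbk_stmt) (y : V) (R : ℕ) (k : Bool) (J : Set V) (L : Finset V) (t : ℕ) :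
    Pr (Ev fun c => ∃ M ∈ MA_U2 J y R L t, ∀ v ∈ M, c v = k) ≤
      Pr (Ev fun c => ∃ K ∈ MA_D J y R L, ∀ v ∈ K, c v = k) ^ t := by
  induction t with
  | zero =>
    rw [pow_zero]
    have := MA_P1
    unfold Pr
    exact measureReal_le_one
  | succ t ih =>
    have h := hB k L (MA_D J y R L) (MA_U2 J y R L t) Set.univ (fun K hK => hK.1)
      (MA_U2_sub J y R L t) (Loc.univ _) (Mon.univ _)
    rw [Set.univ_inter, Set.univ_inter] at h
    have e : (Ev fun c => ∃ M ∈ MA_U2 J y R L (t + 1), ∀ v ∈ M, c v = k) ⊆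
        (Ev fun c => ∃ K ∈ MA_D J y R L, ∃ K' ∈ MA_U2 J y R L t,
          BDis (K : Set V) (K' : Set V) ∧ (∀ v ∈ K, c v = k) ∧ ∀ v ∈ K', c v = k) := by
      rintro b ⟨M, ⟨K, hK, K', hK', hd, hM⟩, hc⟩
      exact ⟨K, hK, K', hK', hd, fun v hv => hc v ((hM v).2 (Or.inl hv)),
        fun v hv => hc v ((hM v).2 (Or.inr hv))⟩
    have h1 : Pr (Ev fun c => ∃ M ∈ MA_U2 J y R L (t + 1), ∀ v ∈ M, c v = k) ≤
        Pr (Ev fun c => ∃ K ∈ MA_D J y R L, ∃ K' ∈ MA_U2 J y R L t,
          BDis (K : Set V) (K' : Set V) ∧ (∀ v ∈ K, c v = k) ∧ ∀ v ∈ K', c v = k) := MA_Pr_mono e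
    have h2 : 0 ≤ Pr (Ev fun c => ∃ K ∈ MA_D J y R L, ∀ v ∈ K, c v = k) := by
      unfold Pr
      exact measureReal_nonneg
    calc _ ≤ _ := h1
      _ ≤ _ := h
      _ ≤ Pr (Ev fun c => ∃ K ∈ MA_D J y R L, ∀ v ∈ K, c v = k) *
          Pr (Ev fun c => ∃ K ∈ MA_D J y R L, ∀ v ∈ K, c v = k) ^ t :=
        mul_le_mul_of_nonneg_left ih h2
      _ = _ := by rw [pow_succ]; ring

theorem MA (hB : Bbk_stmt) (hLH : LH_stmt) : MA_stmt := by
  classical
  intro c₀ l R t y k H J _ hc hJ hR _ hH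
  have hfin : H.Finite := (box_finite y R).subset hH
  set L : Finset V := hfin.toFinset with hL
  have hLm : ∀ v, v ∈ L ↔ v ∈ H := fun v => by simp [hL]
  have hsub : (Ev fun c => Multi c k H J y R t) ⊆
      (Ev fun c => ∃ M ∈ MA_U2 J y R L t, ∀ v ∈ M, c v = k) := by
    rintro b ⟨u, h1, h2⟩
    set c := col b with hcdef
    have key : ∀ s ≤ t, ∃ M ∈ MA_U2 J y R L s, (∀ v ∈ M, c v = k) ∧
        ∀ v ∈ M, ∃ i < s, Conn c k H (u i) v := by
      intro s
      induction s with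
      | zero =>
        intro _
        exact ⟨∅, rfl, by simp, by simp⟩
      | succ s ih =>
        intro hs
        obtain ⟨M, hM, hM1, hM2⟩ := ih (by omega)
        obtain ⟨hu, z, hz, hcon⟩ := h1 s (by omega)
        set K : Finset V := L.filter fun v => Conn c k H (u s) v with hK
        have hKm : ∀ v, v ∈ K ↔ Conn c k H (u s) v := by
          intro v
          rw [hK, Finset.mem_filter, hLm]
          exact ⟨fun h => h.2, fun h => ⟨h.mem_right, h⟩⟩
        refine ⟨K ∪ M, ⟨K, ⟨Finset.filter_subset _ _, u s, hu, z, hz, ?_⟩, M, hM, ?_, ?_⟩, ?_, ?_⟩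
        · refine Con.mono ?_ (MA_cluster hcon)
          intro v hv
          exact (hKm v).2 hv
        · intro v hv w hw hbr
          obtain ⟨i, hi, hiw⟩ := hM2 w hw
          have hv' := (hKm v).1 hv
          have hvw : Conn c k H v w := by
            rcases eq_or_ne v w with rfl | hne
            · exact hiw.symm.trans hiw
            · exact Con.single hv'.symm.1 (br_adj hbr hne) hiw.symm.1
          exact h2 s (by omega) i (by omega) (by omega) ((hv'.trans hvw).trans hiw.symm)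
        · intro v
          exact Finset.mem_union
        · intro v hv
          rcases Finset.mem_union.1 hv with h | h
          · exact ((hKm v).1 h).colour_right
          · exact hM1 v h
        · intro v hv
          rcases Finset.mem_union.1 hv with h | h
          · exact ⟨s, by omega, (hKm v).1 h⟩
          · obtain ⟨i, hi, hiv⟩ := hM2 v h
            exact ⟨i, by omega, hiv⟩
    obtain ⟨M, hM, hM1, -⟩ := key t le_rfl
    exact ⟨M, hM, hM1⟩
  have h1 : Pr (Ev fun c => Multi c k H J y R t) ≤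
      Pr (Ev fun c => ∃ M ∈ MA_U2 J y R L t, ∀ v ∈ M, c v = k) := MA_Pr_mono hsub
  have h2 : 0 ≤ Pr (Ev fun c => ∃ K ∈ MA_D J y R L, ∀ v ∈ K, c v = k) := by
    unfold Pr
    exact measureReal_nonneg
  exact h1.trans ((MA_pow hB y R k J L t).trans
    (pow_le_pow_left₀ h2 (MA_one hLH c₀ l R y k J L hc hJ hR) t))

end TP
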